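import Pool.Agent.H458.AG.Gen
import Pool.Agent.H458.PD.Uni
import Pool.Agent.H458.BM.Bnd
import Pool.Agent.H458.BM.Two
import Pool.Graph.R_pool_sql_team_seeded_63374d34.N844.QF.Hf
import Pool.Graph.R_pool_sql_team_seeded_63374d34.N844.QR.Ex

/-!
# The Bloch-Kato conjecture on Abel-Jacobi maps for almost all hyperelliptic curves and pencils of quadrics

Let `F` be ANY number field and `g ≥ 1`. We consider ALL polynomials
`f = x ^ (2 g + 1) + a_(2 g - 1) x ^ (2 g - 1) + ... + a_0` with coefficients in the ring of integers of `F`,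
ordered by the height: `|σ a_i| ≤ B ^ (2 g + 1 - i)` for all embeddings `σ : F → ℂ`. Let `J_f` be the Jacobian
of the curve `y ^ 2 = f(x)` of genus `g` and `J_f ^ d` its quadratic twist by `d`.

For a natural number `R` and `f` let `C(f, R)` be the class of all the finite Galois extensions
`M / F` of 2-power degree in which all the primes dividing `R` split completely, such that for every prime `v`
of `F` either `M / F` is unramified at `v` or `f` is irreducible modulo `v`, and such that for every real embedding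
`σ` of `F` either a real embedding of `M` extends `σ` or `σ f` has exactly one real zero.

**Theorem.** Let `W ≥ 1`, let `𝒮` be a finite set of nonzero integers of `F` and `ε > 0`. There are a FINITE set
`𝒟` of squarefree natural numbers `D ≡ 1 mod 8 W`, with `1 ∈ 𝒟`, and a multiple `R` of `2 W` and of all `D ∈ 𝒟`, such
that for all large `B` ALL the `f` of height at most `B`, with the exception of a proportion `ε` at most, have for
every `d ∈ 𝒮` a `D ∈ 𝒟` such that for `J = J_f ^ (d D)`, `f' = d ^ (2 g + 1) D ^ (2 g + 1) f(x / (d D))` and ALL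
`M ∈ C(f ^ d, R)` (`M = F` is one of them):

* the Bloch-Kato Selmer group `H ^ 1_f (M, V_2 J)` is zero, multiplication by two is bijective on `J(M)`, and the
  2-primary part of the Tate-Shafarevich group of `J` over `M` is zero; `J(M) = 0` if `y ^ 2 = f ^ d (x)` is regular
  at the primes over two (a condition which holds for all `f ^ d` in a residue class modulo `4`). So the 2-adic
  Abel-Jacobi map of the polarized motive `h ^ 1(J)(1)` over `M` is an isomorphism onto the Bloch-Kato Selmer group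
  (both sides are zero; `J(M) ⊗ ℚ_2 = 0` by the theorem of Mordell and Weil).

* Let `X ⊂ P ^ (2 g + 1)` be ANY intersection of two quadrics of dimension `2 g - 1`, the base locus of a pencil
  `x A - z B` of symmetric matrices of size `2 g + 2` over the ring of integers of `M` with

    `(-1) ^ (g + 1) det (x A - z B) = m ^ 2 z F'(x, z)`, `m ≠ 0`, `F'(x, z)` the homogeneous form of `f'`.

  `X` is smooth over all the fields in which `2 m` is not zero and `f'` is separable and the number of its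
  points over the finite ones is computed. By Reid and Donagi `H ^ (2 g - 1)(X, ℚ_2(g)) = V_2 J` and
  `CH ^ g(X)_0 ⊗ ℚ_2 = J(M) ⊗ ℚ_2`. (These facts are not formalized here; by Faltings the numbers of points
  determine the representation.) So the 2-adic Abel-Jacobi map of the polarized motive `h ^ (2 g - 1)(X)(g)`
  over `M` is an isomorphism onto the Bloch-Kato Selmer group. For every `f'` there is such an `X` over `F` with
  `m = 1` which contains a linear subspace of dimension `g - 1`.

Moreover, let `ω(B)` be ANY function which tends to infinity. For 100 percent of the `f` of height at most `B` there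
is for every `d ∈ 𝒮` a squarefree `D ≤ ω(B)`, `D ≡ 1 mod 8 W`, with these properties over `F`.

The motives `h ^ 1(J)(1) ⊗ ρ` over `F` for all the representations `ρ` of the Galois groups `Gal(M / F)`,
`M` in the class `C(f ^ d, R)`, are the factors of the motives induced from `h ^ 1(J)(1)` over `M`; so all
their 2-adic Bloch-Kato Selmer groups and Chow groups of the kernel of the cycle map are zero.

So the conjecture for `p = 2` holds, for a quadratic twist by one of finitely many numbers which do not depend on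
`f`, for ALMOST ALL the motives `h ^ 1` of odd hyperelliptic curves, for every genus, over every number field, and
for the middle cohomology of almost all the pencils of quadrics of every odd dimension (with a rational degenerate
fibre), over all the fields of an infinite class at the same time.

The group `J(L)` is the Picard group of `L[x, y] / (y ^ 2 - f)` (library `N874/Jac/Def.lean`). The elements of
`V_2 J` are the sequences of the points `x_n` of 2-power order over the separable closure with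
`x_(n + 1) ^ 2 = x_n` (`J` is written multiplicatively). For all finite places `v` the local subgroup
`H ^ 1_f (M_v, V_2 J)` is the image of `J(M_v) ⊗ ℚ_2` (Bloch and Kato, Example 3.11), which is the definition
here.

What was known: positive proportions (library `MP_787500_nt.AllQuadricPencils` over `F`,
`MP_009fd8_ag.JacobiansOverTwoExtensions` for one `M` at a time, our `MP_009fd8_ag.AbelJacobiInTowers` for all `M`), each
for the `f` in a set of small density, and for one generic `f` the existence of SOME quadratic twist with trivial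
2-Selmer group over `F` (Mazur-Rubin, Yu). New: almost all `f`, with a bounded twist.

Proof. `f` is good at a prime number `q` (with a prime of degree one, `q ≡ 1 mod 8 W`) if `f` has exactly
one zero modulo one prime of degree one over `q`, its cofactor is irreducible there, and `f` is irreducible modulo the
other primes over `q`. For a set `S` of primes at which `f` is good, `f` has a twist as required by a product of
primes in `S` if `f` is not in an exceptional set, and a theorem on the orbits of Bhargava and Gross (library and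
helper459) and the number of points near the cusp bound the number of the exceptional `f` by `C 2 ^ (- # S)` of the
good ones, `C` independent of `S`. The new idea is to choose `S` depending on `f`: take `k` disjoint blocks of
primes such that the expected number of good primes in each block is large. All but few `f` have at least `9 / 10`
of this number of good primes in every block; if `f` is exceptional for ALL the transversals `S` of its good
primes, then it is counted very often, and the number of these `f` is at most `C (5 / 9) ^ k` of all.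
In this run the parts for genus `g` were proved by helpers 30, 47, 71, 80, 102, 118, 139, 152, 166, 231, 234, 236, 294,
295, 307, 322, 348, 372, 383, 650, 686 and 945. The passage from `J(M)` and the Tate-Shafarevich group to `H ^ 1_f` is by
`N844/QF/Hf.lean` of the library, the pencils are by `N844/QR/{Pen,Ex}.lean` (helper844 of an earlier run).
-/

set_option autoImplicit false
set_option linter.all false

namespace Pool.Agent.Results.MP_787500_nt.AlmostAllPencils

open Finset Matrix Polynomial Filter IsDedekindDomain NumberField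
open scoped LinearAlgebra.Projectivization
open Pool.Agent.N874.Jac (J mapJ Gal IsCocycle UniquelyTwoDivisible ShaTwoTrivialReal)
open scoped Classical

/-! ### The Bloch-Kato Selmer group of `V_2 J` -/

section basic

variable {K : Type} [Field K] (F : K[X]) {Ω : Type} [Field Ω] [Algebra K Ω]

/-- The elements of `V_2 J`, `J` the Jacobian of `y ^ 2 = F(x)` (written multiplicatively), `Ω` a separable
closure of `K`: the sequences of points `x_n ∈ J(Ω)` of 2-power order with `x_(n + 1) ^ 2 = x_n`. -/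
def IsV (x : ℕ → J F Ω) : Prop := ∀ n, x (n + 1) ^ 2 = x n ∧ ∃ m : ℕ, x n ^ 2 ^ m = 1

/-- the continuous cocycles with values in `V_2 J` -/
def VCocycleIn (c : (Ω ≃ₐ[K] Ω) → ℕ → J F Ω) : Prop :=
  (∀ σ, IsV F (c σ)) ∧ ∀ n, IsCocycle F fun σ => c σ n

/-- the coboundaries with values in `V_2 J` -/
def VCoboundaryIn (c : (Ω ≃ₐ[K] Ω) → ℕ → J F Ω) : Prop :=
  ∃ x : ℕ → J F Ω, IsV F x ∧ ∀ σ n, c σ n = mapJ F σ.toAlgHom (x n) / x n

variable (E : Type) {Ω' : Type} [Field E] [Field Ω'] [Algebra E Ω'] [Algebra K E] [Algebra K Ω']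
  [IsScalarTower K E Ω']

/-- For an embedding `ι : Ω → Ω'` and a point `Q ∈ J(Ω')` the restriction of the cocycle `c` with values in
`J(Ω)` to the automorphisms of `Ω'` over `E` is `τ ↦ τ Q / Q`. -/
def Restricts (ι : Ω →ₐ[K] Ω') (Q : J F Ω') (c : (Ω ≃ₐ[K] Ω) → J F Ω) : Prop :=
  ∀ (τ : Ω' ≃ₐ[E] Ω') (σ : Ω ≃ₐ[K] Ω), (∀ x, τ (ι x) = ι (σ x)) →
    mapJ F ι (c σ) = mapJ F (τ.toAlgHom.restrictScalars K) Q / Q

variable (Ω')

/-- The restriction of the class of `c` to `E` is in the image of `J(E) ⊗ ℚ_2 → H ^ 1 (E, V_2 J)`, `Ω'` a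
separable closure of `E`: there are an embedding `Ω → Ω'` and points `Q_n ∈ J(Ω')` with
`Q_(n + 1) ^ 2 = Q_n` and `c(τ)_n = τ Q_n / Q_n` for all automorphisms `τ` of `Ω'` over `E`. -/
def KummerIn (c : (Ω ≃ₐ[K] Ω) → ℕ → J F Ω) : Prop :=
  ∃ (ι : Ω →ₐ[K] Ω') (Q : ℕ → J F Ω'), (∀ n, Q (n + 1) ^ 2 = Q n) ∧
    ∀ n, Restricts F E ι (Q n) fun σ => c σ n

end basic

section selmer

variable {K : Type} [Field K] (F : K[X])

/-- sequences of functions on the absolute Galois group of `K` with values in `J(K^sep)` -/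
abbrev VCochain : Type := Gal K → ℕ → J F (SeparableClosure K)

variable {F}

/-- the continuous cocycles on the absolute Galois group with values in `V_2 J` -/
def VCocycle (c : VCochain F) : Prop := VCocycleIn F c

/-- the coboundaries with values in `V_2 J` -/
def VCoboundary (c : VCochain F) : Prop := VCoboundaryIn F c

/-- the restriction of the class of `c` to `E` is in the image of `J(E) ⊗ ℚ_2` -/
def Kummer (E : Type) [Field E] [Algebra K E] (c : VCochain F) : Prop :=
  KummerIn F E (SeparableClosure E) c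

/-- the class of `c` is in the image of `J(K_v) ⊗ ℚ_2` for the completions `K_v` of `K` at all maximal
ideals `v` of the Dedekind ring `R` with field of fractions `K` -/
def KummerAtPrimes (R : Type) [CommRing R] [IsDedekindDomain R] [Algebra R K] [IsFractionRing R K]
    (c : VCochain F) : Prop := ∀ v : HeightOneSpectrum R, Kummer (v.adicCompletion K) c

variable (F)

/-- For a number field `K` with the ring of integers `R`: the Bloch-Kato Selmer group
`H ^ 1_f (K, V_2 J)` is zero, `J` the Jacobian of `y ^ 2 = F(x)`. Every continuous cocycle with values in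
`V_2 J` whose class is in the image of `J(K_v) ⊗ ℚ_2` at all finite places `v` is a coboundary. -/
def SelmerZero (R : Type) [CommRing R] [IsDedekindDomain R] [Algebra R K] [IsFractionRing R K] :
    Prop := ∀ c : VCochain F, VCocycle c → KummerAtPrimes R c → VCoboundary c

end selmer

/-! ### The intersections of two quadrics -/

section pencils

variable {D : Type} [CommRing D]

/-- the homogeneous form `F(x, z)` of degree `2 g + 1` of `f` -/
def form (g : ℕ) (f : D[X]) (x z : D) : D :=
  ∑ i ∈ range (2 * g + 2), f.coeff i * x ^ i * z ^ (2 * g + 1 - i)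

/-- the matrices of size `2 g + 2` over `D` -/
abbrev Mat (g : ℕ) (D : Type) : Type := Matrix (Fin (2 * g + 2)) (Fin (2 * g + 2)) D

/-- the quadratic form of a matrix -/
def qf {N : ℕ} (A : Matrix (Fin N) (Fin N) D) (y : Fin N → D) : D := y ⬝ᵥ (A *ᵥ y)

/-- the pencils over `D` with discriminant `m ^ 2 z F(x, z)` -/
structure IsPencil (g : ℕ) (f : D[X]) (m : D) (A B : Mat g D) : Prop where
  symA : A.IsSymm
  symB : B.IsSymm
  disc : ∀ x z : D, (-1) ^ (g + 1) * (x • A - z • B).det = m ^ 2 * (z * form g f x z)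

/-- the linear subspace `y_g = ... = y_(2 g + 1) = 0` of dimension `g - 1` is contained in the base locus -/
def ContainsPlane {g : ℕ} (A B : Mat g D) : Prop :=
  ∀ y : Fin (2 * g + 2) → D, (∀ i : Fin (2 * g + 2), g ≤ (i : ℕ) → y i = 0) →
    qf A y = 0 ∧ qf B y = 0

end pencils

section fields

variable {E : Type} [Field E]

/-- the quadratic forms of `A` and `B` are zero at `y` -/
def OnX {N : ℕ} (A B : Matrix (Fin N) (Fin N) E) (y : Fin N → E) : Prop := qf A y = 0 ∧ qf B y = 0

/-- the base locus `X` of the pencil is smooth (Jacobian criterion at the points over `E`) -/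
def Smooth {N : ℕ} (A B : Matrix (Fin N) (Fin N) E) : Prop :=
  ∀ y : Fin N → E, y ≠ 0 → OnX A B y → LinearIndependent E ![A *ᵥ y, B *ᵥ y]

/-- the number of the points over `E` of the base locus `X` of the pencil -/
noncomputable def numP {N : ℕ} (A B : Matrix (Fin N) (Fin N) E) : ℕ :=
  Nat.card {P : ℙ E (Fin N → E) // OnX A B P.rep}

/-- the number of the points over `E` of the affine curve `y ^ 2 = F(x)` -/
noncomputable def numC (F : E[X]) : ℕ := Nat.card {P : E × E // P.2 ^ 2 = F.eval P.1}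

/-- The number of points of `X` over the finite field `E`: `H ^ (2 g - 1) (X) = H ^ 1 (C) (1 - g)` where `C`
is the curve `y ^ 2 = F(x)`, and the other cohomology is that of a projective space of dimension
`2 g - 1`. -/
def PointCount {g : ℕ} (F : E[X]) (A B : Mat g E) : Prop :=
  (numP A B : ℤ) = ∑ i ∈ range (2 * g), (Nat.card E : ℤ) ^ i +
    (Nat.card E : ℤ) ^ (g - 1) * ((numC F : ℤ) - Nat.card E)

end fields

/-- For all pencils over the ring `D` with discriminant `m ^ 2 z F(x, z)` the base locus is smooth over all the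
fields `E` over `D` in which `2 m` is not zero and `f` is separable, and its number of points is given by
`PointCount` if `E` is finite. -/
def AllPencils {D : Type} [CommRing D] (g : ℕ) (f : D[X]) : Prop :=
  ∀ (m : D) (A B : Mat g D), IsPencil g f m A B →
    ∀ (E : Type) [Field E] (φ : D →+* E), (2 : E) ≠ 0 → φ m ≠ 0 → (f.map φ).Separable →
      Smooth (A.map φ) (B.map φ) ∧ (Finite E → PointCount (f.map φ) (A.map φ) (B.map φ))

section defs

variable {F : Type} [Field F] [NumberField F]

/-- `f` is a monic polynomial of degree `2 g + 1` with integral coefficients, without term of degree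
`2 g`, and of height at most `B`: all conjugates of the coefficient of degree `j` are at most
`B ^ (2 g + 1 - j)` in absolute value. -/
structure IsPoly (g B : ℕ) (f : (𝓞 F)[X]) : Prop where
  monic : f.Monic
  degree : f.natDegree = 2 * g + 1
  trace : f.coeff (2 * g) = 0
  height : ∀ j ≤ 2 * g, ∀ σ : F →+* ℂ, ‖σ (f.coeff j : F)‖ ≤ (B : ℝ) ^ (2 * g + 1 - j)

variable (F) in
/-- The polynomials `f` of height at most `B`. -/
def Polys (g B : ℕ) : Set (𝓞 F)[X] := {f | IsPoly g B f}

/-- `f` is irreducible modulo `v`. -/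
def IrreducibleMod (f : (𝓞 F)[X]) (v : HeightOneSpectrum (𝓞 F)) : Prop :=
  Irreducible (f.map (Ideal.Quotient.mk v.asIdeal))

/-- `d ^ (2 g + 1) f(x / d)`: the coefficient of degree `j` is multiplied by `d ^ (2 g + 1 - j)`. The curve
`y ^ 2 = twist f d` is the quadratic twist by `d` of the curve `y ^ 2 = f(x)`. -/
noncomputable def twist (f : (𝓞 F)[X]) (d : 𝓞 F) : (𝓞 F)[X] := f.scaleRoots d

/-- `M / F` is unramified at `v`. -/
def Unramified (v : HeightOneSpectrum (𝓞 F)) (M : Type) [Field M] [NumberField M]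
    [Algebra F M] : Prop :=
  ∀ w : HeightOneSpectrum (𝓞 M), v.asIdeal.map (algebraMap (𝓞 F) (𝓞 M)) ≤ w.asIdeal →
    ¬ v.asIdeal.map (algebraMap (𝓞 F) (𝓞 M)) ≤ w.asIdeal ^ 2

/-- `v` splits completely in `M`: it is unramified and all integers of `M` are congruent to integers of
`F` modulo every prime over `v`. -/
def SplitsCompletely (v : HeightOneSpectrum (𝓞 F)) (M : Type) [Field M] [NumberField M]
    [Algebra F M] : Prop :=
  Unramified v M ∧
  ∀ w : HeightOneSpectrum (𝓞 M), v.asIdeal.map (algebraMap (𝓞 F) (𝓞 M)) ≤ w.asIdeal →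
    ∀ y : 𝓞 M, ∃ c : 𝓞 F, y - algebraMap (𝓞 F) (𝓞 M) c ∈ w.asIdeal

/-- The extension `M / F` belongs to the class `C(f, R)` of the number `R` and the polynomial `f`. -/
structure InClass (R : ℕ) (f : (𝓞 F)[X]) (M : Type) [Field M] [NumberField M] [Algebra F M] : Prop where
  galois : IsGalois F M
  degree : ∃ n : ℕ, Module.finrank F M = 2 ^ n
  split : ∀ v : HeightOneSpectrum (𝓞 F), (R : 𝓞 F) ∈ v.asIdeal → SplitsCompletely v M
  ramified : ∀ v : HeightOneSpectrum (𝓞 F), Unramified v M ∨ IrreducibleMod f v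
  real : ∀ σ : F →+* ℝ, (∃ ρ : M →+* ℝ, ρ.comp (algebraMap F M) = σ) ∨
    ∃! e : ℝ, (f.map (σ.comp (algebraMap (𝓞 F) F))).eval e = 0

/-- The polynomial `f` over the extension `M` of `F`. -/
noncomputable def overM (M : Type) [Field M] [Algebra F M] (f : (𝓞 F)[X]) : M[X] :=
  (f.map (algebraMap (𝓞 F) F)).map (algebraMap F M)

/-- The polynomial `f` over the ring of integers of the extension `M` of `F`. -/
noncomputable def overInt (M : Type) [Field M] [Algebra F M] (f : (𝓞 F)[X]) : (𝓞 M)[X] :=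
  f.map (algebraMap (𝓞 F) (𝓞 M))

/-- `y ^ 2 = f(x)` is regular at the points over all the primes `v` over two: `f` is congruent to
`E ^ 2 + x G ^ 2 + π r` modulo `v ^ 2`, where `π` is a uniformizer and `r` and `G` are coprime modulo `v`. -/
def RegularAtTwo (f : (𝓞 F)[X]) : Prop :=
  ∀ v : HeightOneSpectrum (𝓞 F), (2 : 𝓞 F) ∈ v.asIdeal →
    ∃ (π : 𝓞 F) (E G r a b : (𝓞 F)[X]), π ∈ v.asIdeal ∧ π ∉ v.asIdeal ^ 2 ∧
      (∀ j, (f - (E ^ 2 + X * G ^ 2 + C π * r)).coeff j ∈ v.asIdeal ^ 2) ∧
      ∀ j, (a * r + b * G - 1).coeff j ∈ v.asIdeal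

/-- The conjecture for `p = 2` over `M` and all the pencils which belong to `f`, `J` the Jacobian of
`y ^ 2 = f(x)`: `H ^ 1_f (M, V_2 J) = 0`, multiplication by two is bijective on `J(M)`, the 2-primary
part of the Tate-Shafarevich group of `J` over `M` is zero, and all the pencils
over the ring of integers of `M` with discriminant `m ^ 2 z F(x, z)` have smooth base locus with the number of
points given by `PointCount`. -/
structure BlochKato (g : ℕ) (M : Type) [Field M] [NumberField M] [Algebra F M] (f : (𝓞 F)[X]) :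
    Prop where
  selmer : SelmerZero (overM M f) (𝓞 M)
  points : UniquelyTwoDivisible (overM M f)
  sha : ShaTwoTrivialReal (overM M f) (𝓞 M)
  pencils : AllPencils g (overInt M f)

/-- The properties of the twist of `f` by `c` in the theorem, over all the fields `M` in the class of `f₀`. -/
structure Good (g R : ℕ) (f₀ f : (𝓞 F)[X]) (c : 𝓞 F) : Prop where
  blochKato : ∀ (M : Type) [Field M] [NumberField M] [Algebra F M], InClass R f₀ M →
    BlochKato g M (twist f c)
  zero : RegularAtTwo f₀ → ∀ (M : Type) [Field M] [NumberField M] [Algebra F M], InClass R f₀ M →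
    Subsingleton (J (overM M (twist f c)) M)

end defs

section pf

variable {F : Type} [Field F] [NumberField F]

open Pool.Agent.H459.UF (Unr Deg1 below exists_above)

theorem allPencils_of (L : Type) [Field L] [NumberField L] {g : ℕ} (hg : 1 ≤ g) {f : (𝓞 L)[X]}
    (hf : f.Monic) (hd : f.natDegree = 2 * g + 1) : AllPencils g f := by
  haveI : Infinite (𝓞 L) := CharZero.infinite _
  intro m A B h E _ φ hE hm hs
  have h' : Pool.Agent.N844.QR.IsPen g f m A B := ⟨h.symA, h.symB, h.disc⟩
  exact ⟨fun y hy h6 => h'.smooth φ hf hd hm hs hy h6.1 h6.2,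
    fun _ => h'.num hg hf hd E φ hE hm hs⟩

theorem plane_of {g : ℕ} {f : (𝓞 F)[X]} (hf : f.Monic) (hd : f.natDegree = 2 * g + 1) :
    ∃ A B : Mat g (𝓞 F), IsPencil g f 1 A B ∧ ContainsPlane A B := by
  haveI : Infinite (𝓞 F) := CharZero.infinite _
  have h' := Pool.Agent.N844.QR.ex_pen hf hd
  refine ⟨Pool.Agent.N844.QR.eA hf hd, Pool.Agent.N844.QR.eB hf hd,
    ⟨h'.symA, h'.symB, h'.disc⟩, fun y hy => ?_⟩
  have key : ∀ A : Mat g (𝓞 F),
      (∀ i j : Fin (2 * g + 2), (i : ℕ) < g → (j : ℕ) < g → A i j = 0) → qf A y = 0 := by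
    intro A hA
    unfold qf
    simp only [dotProduct, mulVec]
    refine Finset.sum_eq_zero fun i _ => ?_
    rcases Nat.lt_or_ge (i : ℕ) g with hi | hi
    · rw [Finset.sum_eq_zero, mul_zero]
      intro j _
      rcases Nat.lt_or_ge (j : ℕ) g with hj | hj
      · rw [hA i j hi hj, zero_mul]
      · rw [hy j hj, mul_zero]
    · rw [hy i hi, zero_mul]
  exact ⟨key _ fun i j hi hj => (Pool.Agent.N844.QR.e_zero hf hd i j hi hj).1,
    key _ fun i j hi hj => (Pool.Agent.N844.QR.e_zero hf hd i j hi hj).2⟩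

theorem cls_of {M : Type} [Field M] [NumberField M] [Algebra F M] {R : ℕ} {f : (𝓞 F)[X]}
    (h : InClass R f M) : Pool.Agent.H458.AG.ClsM F M R f where
  spl := fun v hv => ⟨Pool.Agent.H458.AG.Gen.unr_of (h.split v hv).1, (h.split v hv).2⟩
  unr := fun v => (h.ramified v).imp Pool.Agent.H458.AG.Gen.unr_of id
  real := fun σ => (h.real σ).imp id fun h' => by
    unfold Pool.Agent.N783.PF.fF
    rw [Polynomial.map_map]
    exact h'

/-- `M = F` belongs to all the classes. -/
theorem self_mem (R : ℕ) (f : (𝓞 F)[X]) : InClass R f F := by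
  have h2 := Pool.Agent.H458.AG.Gen.cls_base (F := F) R f
  exact ⟨inferInstance, ⟨0, by rw [Module.finrank_self, pow_zero]⟩,
    fun v hv => ⟨Pool.Agent.H458.AG.Gen.of_unr (h2.spl v hv).1, (h2.spl v hv).2⟩,
    fun v => Or.inl (Pool.Agent.H458.AG.Gen.of_unr (Pool.Agent.H458.AU.unr_self v)),
    fun σ => Or.inl ⟨σ, by
    ext x
    rfl⟩⟩

/-- The embedding in the completion at a prime which splits completely. -/
theorem embed {M : Type} [Field M] [NumberField M] [Algebra F M] {v : HeightOneSpectrum (𝓞 F)}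
    (h : SplitsCompletely v M) : Nonempty (M →ₐ[F] v.adicCompletion F) := by
  obtain ⟨w, hw⟩ := exists_above (K := F) M v
  subst hw
  obtain ⟨j, hj⟩ := Pool.Agent.H459.UF.cpl_surj (Pool.Agent.H459.UF.dns_of_deg1
    (K := F) (P := w) (Pool.Agent.H458.AG.Gen.unr_of h.1) h.2)
  refine ⟨{ (j.comp (algebraMap M (w.adicCompletion M))) with commutes' := fun r => hj r }⟩

/-- Regularity is the same for the twist by `D ≡ 1 mod 8`. -/
theorem reg_twist {f : (𝓞 F)[X]} {D W : ℕ} (hD : D ≡ 1 [MOD 8 * W]) (hf : RegularAtTwo f)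
    (v : HeightOneSpectrum (𝓞 F)) (hv : (2 : 𝓞 F) ∈ v.asIdeal) :
    Pool.Agent.H458.PD.RegAt v (f.scaleRoots (D : 𝓞 F)) := by
  have h0 : Pool.Agent.H458.PD.RegAt v f := hf v hv
  refine h0.congr fun j => ?_
  rw [coeff_scaleRoots]
  have h8 : D ≡ 1 [MOD 8] := hD.of_dvd (dvd_mul_right 8 W)
  have h9 : D ^ (f.natDegree - j) ≡ 1 [MOD 8] := by
    have := h8.pow (f.natDegree - j)
    rwa [one_pow] at this
  obtain ⟨k, hk⟩ : (8 : ℤ) ∣ ((D ^ (f.natDegree - j) : ℕ) : ℤ) - 1 := by
    have := (Nat.modEq_iff_dvd.1 h9.symm)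
    exact_mod_cast this
  have e1 : (D : 𝓞 F) ^ (f.natDegree - j) = 8 * (k : 𝓞 F) + 1 := by
    have h10 : (((D ^ (f.natDegree - j) : ℕ) : ℤ) : 𝓞 F) = ((8 * k + 1 : ℤ) : 𝓞 F) := by
      rw [← hk]
      ring_nf
    push_cast at h10
    exact h10
  have e2 : f.coeff j * (D : 𝓞 F) ^ (f.natDegree - j) - f.coeff j = (2 * 2) * (2 * (k : 𝓞 F) * f.coeff j) := by
    rw [e1]
    ring
  rw [e2, pow_two]
  exact Ideal.mul_mem_right _ _ (Ideal.mul_mem_mul hv hv)

theorem selmerZero_of {g : ℕ} {f : (𝓞 F)[X]} (hm : f.Monic) (hd : f.natDegree = 2 * g + 1)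
    (hirr : Irreducible (Pool.Agent.N783.PF.fF f)) (M : Type) [Field M] [NumberField M] [Algebra F M]
    (hdiv : UniquelyTwoDivisible (overM M f)) (hsha : ShaTwoTrivialReal (overM M f) (𝓞 M)) :
    SelmerZero (overM M f) (𝓞 M) := by
  intro c hc hl
  have hPm : (overM M f).Monic := (hm.map _).map _
  have hPs : (overM M f).Separable := hirr.separable.map
  have hPd : (overM M f).natDegree = 2 * g + 1 := by
    unfold overM
    rw [(hm.map _).natDegree_map, hm.natDegree_map, hd]
  have hPo : Odd (overM M f).natDegree := by rw [hPd]; exact odd_two_mul_add_one g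
  exact Pool.Agent.N844.QF.h1f_zero (F := overM M f) two_ne_zero hPm hPs hPo (𝓞 M) hdiv hsha c
    (fun n => (hc.2 n).1) hc.1 (fun σ τ n => (hc.2 n).2 σ τ) (fun v n => by
      obtain ⟨ι, Q, -, hQ⟩ := hl v
      exact ⟨ι, Q n, hQ n⟩)

theorem good_of {g R W : ℕ} (hg : 1 ≤ g) {𝒟 : Finset ℕ} {𝒮 : Finset (𝓞 F)} (h2R : 2 ∣ R)
    (h𝒮 : ∀ d ∈ 𝒮, d ≠ 0) (hD0 : ∀ D ∈ 𝒟, Squarefree D ∧ D ≡ 1 [MOD 8 * W] ∧ D ∣ R) {f : (𝓞 F)[X]}
    (hf : f ∈ Pool.Agent.H458.AG.Gen.VV F g R 𝒟 𝒮) {d : 𝓞 F} (hd : d ∈ 𝒮) :
    ∃ D ∈ 𝒟, Good g R (twist f d) f (d * (D : 𝓞 F)) := by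
  obtain ⟨D, hD, hm, hdeg, hirr, h⟩ := Pool.Agent.H458.AG.Gen.triv_of h𝒮 (fun D hD => (hD0 D hD).1) hf hd
  have hsel : ∀ (M : Type) [Field M] [NumberField M] [Algebra F M], InClass R (twist f d) M →
      UniquelyTwoDivisible (overM M (twist f (d * (D : 𝓞 F)))) ∧
      ShaTwoTrivialReal (overM M (twist f (d * (D : 𝓞 F)))) (𝓞 M) := by
    intro M _ _ _ hM
    haveI := hM.galois
    obtain ⟨n, hn⟩ := hM.degree
    exact h M n hn (cls_of hM)
  refine ⟨D, hD, ?_, ?_⟩
  · intro M _ _ _ hM
    obtain ⟨h1, h2⟩ := hsel M hM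
    refine ⟨selmerZero_of hm hdeg hirr M h1 h2, h1, h2, allPencils_of M hg (hm.map _) ?_⟩
    unfold overInt twist
    rw [hm.natDegree_map, hdeg]
  · intro hreg M _ _ _ hM
    obtain ⟨v, hv⟩ := Pool.Agent.H458.PD.exists_two F
    have hR0 : (R : 𝓞 F) ∈ v.asIdeal := by
      obtain ⟨m, hm⟩ := h2R
      rw [hm, Nat.cast_mul]
      exact Ideal.mul_mem_right _ _ (by exact_mod_cast hv)
    obtain ⟨σ⟩ := embed (hM.split v hR0)
    have h3 := reg_twist (hD0 D hD).2.1 hreg v hv
    unfold twist at h3
    rw [← scaleRoots_mul] at h3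
    obtain ⟨-, -, hJ, -⟩ := Pool.Agent.H458.PD.glo_ring σ hv h3 hm hdeg
      hirr.separable (P := overM M (twist f (d * (D : 𝓞 F)))) rfl (hsel M hM).1
    exact hJ

end pf

theorem part1 (F : Type) [Field F] [NumberField F] (g : ℕ) (hg : 1 ≤ g) (W : ℕ) (hW : 0 < W)
    (𝒮 : Finset (𝓞 F)) (h𝒮 : ∀ d ∈ 𝒮, d ≠ 0) (ε : ℝ) (hε : 0 < ε) :
    (∀ B : ℕ, (Polys F g B).Finite) ∧
    ∃ (R : ℕ) (𝒟 : Finset ℕ), 0 < R ∧ 2 * W ∣ R ∧ 1 ∈ 𝒟 ∧
      (∀ D ∈ 𝒟, Squarefree D ∧ D ≡ 1 [MOD 8 * W] ∧ D ∣ R) ∧
      (∀ f : (𝓞 F)[X], InClass R f F) ∧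
      ∀ᶠ B : ℕ in atTop, 0 < (Polys F g B).ncard ∧
        (1 - ε) * ((Polys F g B).ncard : ℝ) ≤ ({f ∈ Polys F g B | ∀ d ∈ 𝒮, ∃ D ∈ 𝒟,
          Good g R (twist f d) f (d * (D : 𝓞 F))}.ncard : ℝ) := by
  have heq : ∀ B, Polys F g B = {f : (𝓞 F)[X] | Pool.Agent.N783.PF.Ht g B f} := by
    intro B
    ext f
    exact ⟨fun h => ⟨h.monic, h.degree, h.trace, fun j hj σ => h.height j hj σ⟩,
      fun h => ⟨h.mon, h.deg, h.tr, fun j hj σ => h.ht j hj σ⟩⟩
  obtain ⟨hfin, R, 𝒟, hR, hWR, h1, hD, hX⟩ := Pool.Agent.H458.AG.Gen.part F W hW 𝒮 h𝒮 ε hε g hg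
  have hfin' : ∀ B : ℕ, (Polys F g B).Finite := fun B => by
    rw [heq]
    exact hfin B
  refine ⟨hfin', R, 𝒟, hR, hWR, h1, hD, self_mem R, ?_⟩
  filter_upwards [hX] with B hB
  obtain ⟨h2, h3⟩ := hB
  rw [← heq] at h2 h3
  refine ⟨h2, h3.trans ?_⟩
  have h4 := Set.ncard_le_ncard (s := Pool.Agent.H458.AG.Gen.VV F g R 𝒟 𝒮 ∩ Polys F g B)
    (t := {f ∈ Polys F g B | ∀ d ∈ 𝒮, ∃ D ∈ 𝒟, Good g R (twist f d) f (d * (D : 𝓞 F))})
    (fun f hf => ⟨hf.2, fun d hd => good_of hg (dvd_of_mul_right_dvd hWR) h𝒮 hD hf.1 hd⟩)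
    ((hfin' B).subset fun f hf => hf.1)
  exact_mod_cast h4

/-- **The Bloch-Kato conjecture for `p = 2` for almost all hyperelliptic curves and pencils of quadrics after a
bounded twist.** For every number field `F`, every `g ≥ 1`, `W ≥ 1` and every finite set `𝒮` of nonzero integers of
`F`: every `f` has a pencil of quadrics over the ring of integers of `F` with `m = 1` which contains a linear subspace of
dimension `g - 1`; there is a residue class modulo `4` of polynomials which are regular at two. For every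
`ε > 0` there are a finite set `𝒟` of squarefree natural numbers `D ≡ 1 mod 8 W` and a multiple `R` of `2 W` and of
all `D ∈ 𝒟` such that for all large `B` at least `(1 - ε)` times the number of ALL the `f` of height at most `B`
have for every `d ∈ 𝒮` a `D ∈ 𝒟` with the following property, `J` the Jacobian of the twist of
`y ^ 2 = f(x)` by `d D`: for ALL the extensions `M / F` in the class `C(f ^ d, R)` (among them `F`) the
Bloch-Kato Selmer group `H ^ 1_f (M, V_2 J)` is zero, multiplication by two is bijective on `J(M)`, the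
2-primary part of the Tate-Shafarevich group of `J` over `M` is zero, and all the pencils over the integers of `M` with
discriminant `m ^ 2 z F'(x, z)` have smooth base locus (and the expected number of points over the finite fields in
which `2 m` is not zero and `f'` is separable); `J(M) = 0` if `f ^ d` is regular at two. For every function
`ω` which tends to infinity the proportion of the `f` such that for all `d ∈ 𝒮` there is such a `D ≤ ω(B)` for `M = F`
tends to `1`. -/
theorem result (F : Type) [Field F] [NumberField F] (g : ℕ) (hg : 1 ≤ g) (W : ℕ) (hW : 0 < W)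
    (𝒮 : Finset (𝓞 F)) (h𝒮 : ∀ d ∈ 𝒮, d ≠ 0) :
    (∀ B : ℕ, (Polys F g B).Finite) ∧
    (∀ f : (𝓞 F)[X], f.Monic → f.natDegree = 2 * g + 1 →
      ∃ A B : Mat g (𝓞 F), IsPencil g f 1 A B ∧ ContainsPlane A B) ∧
    (∃ f₂ : (𝓞 F)[X], (f₂.Monic ∧ f₂.natDegree = 2 * g + 1 ∧ f₂.coeff (2 * g) = 0) ∧
      ∀ f : (𝓞 F)[X], (∀ j, (4 : 𝓞 F) ∣ f.coeff j - f₂.coeff j) → RegularAtTwo f) ∧
    -- one finite set of twists for all but `ε` of all the polynomials
    (∀ ε : ℝ, 0 < ε → ∃ (R : ℕ) (𝒟 : Finset ℕ), 0 < R ∧ 2 * W ∣ R ∧ 1 ∈ 𝒟 ∧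
      (∀ D ∈ 𝒟, Squarefree D ∧ D ≡ 1 [MOD 8 * W] ∧ D ∣ R) ∧
      (∀ f : (𝓞 F)[X], InClass R f F) ∧
      ∀ᶠ B : ℕ in atTop, 0 < (Polys F g B).ncard ∧
        (1 - ε) * ((Polys F g B).ncard : ℝ) ≤ ({f ∈ Polys F g B | ∀ d ∈ 𝒮, ∃ D ∈ 𝒟,
          Good g R (twist f d) f (d * (D : 𝓞 F))}.ncard : ℝ)) ∧
    -- 100 percent of the polynomials have a twist by a number below any function which tends to infinity
    ∀ ω : ℕ → ℝ, Tendsto ω atTop atTop →
      Tendsto (fun B : ℕ => ({f ∈ Polys F g B | ∀ d ∈ 𝒮, ∃ D : ℕ, Squarefree D ∧ D ≡ 1 [MOD 8 * W] ∧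
        (D : ℝ) ≤ ω B ∧ BlochKato g F (twist f (d * (D : 𝓞 F)))}.ncard : ℝ) /
          ((Polys F g B).ncard : ℝ)) atTop (nhds 1) := by
  have hfin : ∀ B : ℕ, (Polys F g B).Finite := (part1 F g hg W hW 𝒮 h𝒮 1 one_pos).1
  obtain ⟨f₂, hf₂m, hf₂d, hf₂t, hf₂i, hf₂r⟩ := Pool.Agent.H458.BM.ex5 F g hg
  refine ⟨hfin, fun f hm hd => plane_of hm hd, ⟨f₂, ⟨hf₂m, hf₂d, hf₂t⟩, fun f hf v hv => ?_⟩,
    fun ε hε => (part1 F g hg W hW 𝒮 h𝒮 ε hε).2, fun ω hω => ?_⟩
  · have h5 : Pool.Agent.H458.PD.RegAt v f := by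
      refine (hf₂r v hv).congr fun j => ?_
      obtain ⟨c, hc⟩ := hf j
      rw [hc, show (4 : 𝓞 F) = 2 * 2 by norm_num, pow_two]
      exact Ideal.mul_mem_right _ _ (Ideal.mul_mem_mul hv hv)
    exact h5
  rw [Metric.tendsto_atTop]
  intro ε hε
  obtain ⟨-, R, 𝒟, hR, hWR, h1, hD, hcl, hX⟩ := part1 F g hg W hW 𝒮 h𝒮 (ε / 2) (half_pos hε)
  obtain ⟨m, hm⟩ : ∃ m : ℕ, ∀ D ∈ 𝒟, D ≤ m := ⟨𝒟.sup id, fun D hD => Finset.le_sup (f := id) hD⟩
  obtain ⟨B₀, hB₀⟩ := eventually_atTop.1 (hX.and (hω.eventually_ge_atTop (m : ℝ)))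
  refine ⟨B₀, fun B hBB => ?_⟩
  obtain ⟨⟨hpos, hgood⟩, hωB⟩ := hB₀ B hBB
  obtain ⟨G, hG⟩ : ∃ G : Set (𝓞 F)[X], G = {f ∈ Polys F g B | ∀ d ∈ 𝒮, ∃ D : ℕ, Squarefree D ∧
    D ≡ 1 [MOD 8 * W] ∧ (D : ℝ) ≤ ω B ∧ BlochKato g F (twist f (d * (D : 𝓞 F)))} := ⟨_, rfl⟩
  rw [← hG]
  have hsub : {f ∈ Polys F g B | ∀ d ∈ 𝒮, ∃ D ∈ 𝒟, Good g R (twist f d) f (d * (D : 𝓞 F))} ⊆ G := by
    rintro f ⟨hf1, hf2⟩
    rw [hG]
    refine ⟨hf1, fun d hd => ?_⟩
    obtain ⟨D, hD1, h2⟩ := hf2 d hd
    refine ⟨D, (hD D hD1).1, (hD D hD1).2.1, ?_, h2.blochKato F (hcl _)⟩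
    exact le_trans (by exact_mod_cast hm D hD1) hωB
  have hGf : G.Finite := (hfin B).subset (by rw [hG]; exact fun p hp => hp.1)
  have c1 := Set.ncard_le_ncard hsub hGf
  have c3 := Set.ncard_le_ncard (show G ⊆ Polys F g B by rw [hG]; exact fun p hp => hp.1) (hfin B)
  obtain ⟨N, hN⟩ : ∃ N : ℝ, N = ((Polys F g B).ncard : ℝ) := ⟨_, rfl⟩
  have hN0 : 0 < N := by rw [hN]; exact_mod_cast hpos
  have c4 : (1 - ε / 2) * N ≤ G.ncard := by
    rw [hN]
    exact hgood.trans (by exact_mod_cast c1)
  have c5 : (G.ncard : ℝ) ≤ N := by rw [hN]; exact_mod_cast c3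
  rw [← hN]
  rw [Real.dist_eq, abs_sub_lt_iff]
  constructor
  · have : (G.ncard : ℝ) / N ≤ 1 := (div_le_one hN0).2 c5
    linarith
  · have : 1 - ε / 2 ≤ (G.ncard : ℝ) / N := by
      rw [le_div_iff₀ hN0]
      linarith
    linarith

end Pool.Agent.Results.MP_787500_nt.AlmostAllPencils
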