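import Mathlib
import Pool.Agent.H451.BB.Def
import Pool.Agent.H451.BB.Def3
import Pool.Agent.H451.JR.Def
import Pool.Agent.H508.Z.A1

/-!
# The `3`-adic Abel–Jacobi maps of a positive proportion of all diagonal cubic curves, threefolds and
# fivefolds are isomorphisms onto the Selmer groups of Bloch and Kato

`K = ℚ(√-3)` is the field of the third roots of unity, `m = 3, 5, 7`, and `a = (a_1, …, a_m)` runs through ALL
the `m`-tuples of non-zero elements of `𝓞 K`, ordered by the height `max N(a_i)`.  Let `X` be the smooth cubic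
hypersurface `V_a : a_1 x_1 ^ 3 + ⋯ + a_m x_m ^ 3 = 0`, of the odd dimension `2 i + 1 = m - 2` over `K`, and
`V = H ^ (2 i + 1) (X, ℚ₃(i + 1))` (so `e = 1`: there is no primitive part to be split off).  Let
`D_S = ∏ a_i ∏_{i ∈ S} a_i` and `E_S : y ^ 2 + D_S y = x ^ 3`, for the sets `S` of `(m - 3) / 2` of the `m`
indices.  Then `h ^ (m - 2) (X) ((m - 1) / 2) = ⊕_S h ^ 1 (E_S)(1)`; for the realisations this follows from the
numbers of points over all finite fields (`Mot`, by Chebotarev and Faltings), and for the Chow motives from the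
work of Shioda and Katsura: the motive of `X` is a sum of pieces of the motives of products of the curves
`y ^ 2 + D y = x ^ 3` with complex multiplication.

So for the prime `p = 3` the question of the problem for `X` asks whether the maps
`E_S(K) ⊗ ℚ₃ → H¹_f(K, V₃(E_S))` are isomorphisms for all `S`.  We prove:

* This is true for a positive proportion of all the `a`, ordered by the height, both sides being zero:
  all the `E_S(K)` are finite and `H¹_f(K, V₃(E_S)) = 0`, so that `H¹_f(K, V) = 0`.
* More precisely let `a_1, …, a_m` be squarefree and `1` modulo `3` with norms which are not `1` modulo `9`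
  (`Cls`), such that no `D_S` has a norm `1` modulo `9` (`AdmA`); there are at least `c X ^ m` such `a` of
  height at most `X`.  Among these the proportion of the `a` for which all the Selmer groups of the
  endomorphisms `√-3` of the curves `E_S` have the smallest possible order `3` tends to `c₀ ^ C(m, (m - 3) / 2)`,
  `c₀ = ∏_{i ≥ 0} (1 - 3 ^ (-(2 i + 1))) = 0.639…`, and for all these `a` the conjecture holds at `p = 3`.

`V₃(E) = T₃(E) ⊗ ℚ₃` consists of the sequences `x₀, x₁, …` of points of `3`-power order with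
`3 x_{n+1} = x_n`, and `H¹_f(K, V₃(E))` is the group of the classes of the continuous cocycles whose
restrictions to the decomposition groups at all places are in the image of the Kummer map (library,
`Pool.Agent.Y667.BKP.IsSelV`); this is the local condition of Bloch and Kato.

## What is new

The finiteness of the `E_S(K)` for a positive proportion of all the `a`, the joint law of the Selmer groups and
the values of the `L`-functions are the theorem `Pool.Agent.H451.JR.final_all` of helper451 and his coworkers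
(hand-in `AllDiagonalCubicsByHeight` for `MP_b8021b_nt`).  Here we add the `3`-primary parts of the
Tate–Shafarevich groups of all the `E_S`, which are trivial, and the Selmer groups of Bloch and Kato
(`H508/Z/A1`).  No case of the conjecture for cubic threefolds or fivefolds over a number field in a family of
positive proportion was known to us.
-/

set_option autoImplicit false

namespace Pool.Agent.Results.MP_787500_nt.DiagonalCubicsAtThree

open NumberField Pool.Agent.H451.CubT
open Pool.Agent.Y667.BKP (Coch2 IsSelV IsCobV)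
open scoped Classical

/-- `H¹_f(K, V₃(W)) = 0`: every continuous cocycle of the absolute Galois group of `K` with values in
`V₃(W)`, whose restriction to the completion of `K` at every place is in the image of the Kummer map, is a
coboundary. -/
def SelmerZero {K : Type} [Field K] [NumberField K] (W : WeierstrassCurve K) : Prop :=
  ∀ c : Coch2 W, IsSelV 3 W c → IsCobV 3 W c

/-- The conjecture at `p = 3` for the motive `⊕ h¹(E_S)(1)` of `V_a`, both sides being zero: for all the sets
`S` of `(m - 3) / 2` indices `E_S(K)` is finite and `H¹_f(K, V₃(E_S)) = 0`. -/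
def AbelJacobi {K : Type} [Field K] [NumberField K] {m : ℕ} (a : Fin m → 𝓞 K) : Prop :=
  ∀ S : Finset (Fin m), S.card = (m - 3) / 2 →
    Finite (E ((DS a S : 𝓞 K) : K)).toAffine.Point ∧ SelmerZero (E ((DS a S : 𝓞 K) : K))

/-- The Selmer groups of the endomorphism `√-3` of the curves `E_S` have the order `3`, for all `S`. -/
def TrivialSelmer {K : Type} [Field K] [NumberField K] {m : ℕ} (a : Fin m → 𝓞 K) : Prop :=
  ∀ S : Finset (Fin m), S.card = (m - 3) / 2 →
    (Pool.Agent.XL6.SelK ((DS a S : 𝓞 K) : K)).ncard = 3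

theorem each {K : Type} [Field K] [NumberField K] [IsCyclotomicExtension {3} ℚ K] {m : ℕ}
    (hm : m = 3 ∨ m = 5 ∨ m = 7) {a : Fin m → 𝓞 K} (h1 : ∀ i, Cls (a i)) (h2 : AdmA a)
    (h3 : SelRk a (fun _ => 0)) : AbelJacobi a := fun S hS =>
  ⟨(Pool.Agent.H508.Z.sha_of_sel hm a h1 h2 h3 S hS).1,
    Pool.Agent.H508.Z.selmer_zero (Pool.Agent.H508.Z.sha_of_sel hm a h1 h2 h3 S hS).1
      (Pool.Agent.H508.Z.sha_of_sel hm a h1 h2 h3 S hS).2⟩

/-- **The `3`-adic Abel–Jacobi maps of a positive proportion of all diagonal cubic hypersurfaces** of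
dimension `1`, `3`, `5` over `K = ℚ(√-3)`, ordered by the norms of the coefficients. -/
theorem result (K : Type) [Field K] [NumberField K] [IsCyclotomicExtension {3} ℚ K] (m : ℕ)
    (hm : m = 3 ∨ m = 5 ∨ m = 7) :
    (∀ a : Fin m → 𝓞 K, (∀ i, a i ≠ 0) → Mot a) ∧
    (∃ c : ℝ, 0 < c ∧ ∃ X₀ : ℕ, ∀ X : ℕ, X₀ ≤ X →
      c * ({a : Fin m → 𝓞 K | ∀ i, a i ≠ 0 ∧ Algebra.norm ℤ (a i) ≤ X}.ncard : ℝ) ≤
        ({a : Fin m → 𝓞 K | (∀ i, a i ≠ 0 ∧ Algebra.norm ℤ (a i) ≤ X) ∧
          AbelJacobi a}.ncard : ℝ)) ∧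
    (∃ c : ℝ, 0 < c ∧ ∃ X₀ : ℕ, ∀ X : ℕ, X₀ ≤ X →
      c * (X : ℝ) ^ m ≤ ({a : Fin m → 𝓞 K | (∀ i, Cls (a i) ∧ Algebra.norm ℤ (a i) ≤ X) ∧
        AdmA a}.ncard : ℝ)) ∧
    (∀ a : Fin m → 𝓞 K, (∀ i, Cls (a i)) → AdmA a → TrivialSelmer a → AbelJacobi a) ∧
    Filter.Tendsto (fun X : ℕ =>
      ({a : Fin m → 𝓞 K | (∀ i, Cls (a i) ∧ Algebra.norm ℤ (a i) ≤ X) ∧ AdmA a ∧
        TrivialSelmer a}.ncard : ℝ) /
      ({a : Fin m → 𝓞 K | (∀ i, Cls (a i) ∧ Algebra.norm ℤ (a i) ≤ X) ∧ AdmA a}.ncard : ℝ))
      Filter.atTop (nhds ((∏' i : ℕ, (1 - (1 / 3 : ℝ) ^ (2 * i + 1))) ^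
        m.choose ((m - 3) / 2))) := by
  obtain ⟨h1, -, h3, -, -, h6⟩ := Pool.Agent.H451.JR.final_all K m hm
  refine ⟨fun a ha => (h1 a ha).1,
    Pool.Agent.H508.Z.box_pos K m hm AbelJacobi fun a g1 g2 g3 => each hm g1 g2 g3, h3,
    fun a g1 g2 g3 => each hm g1 g2 fun S hS => g3 S hS, ?_⟩
  have h7 := h6 fun _ => 0
  have h8 : ∏ S ∈ Finset.powersetCard ((m - 3) / 2) (Finset.univ : Finset (Fin m)), pr 0 =
      (∏' i : ℕ, (1 - (1 / 3 : ℝ) ^ (2 * i + 1))) ^ m.choose ((m - 3) / 2) := by
    rw [Finset.prod_const, Finset.card_powersetCard, Finset.card_univ, Fintype.card_fin]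
    congr 1
    unfold pr
    rw [Finset.range_zero, Finset.prod_empty, div_one]
  rw [h8] at h7
  exact h7

end Pool.Agent.Results.MP_787500_nt.DiagonalCubicsAtThree
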