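import Pool.Agent.H517.B.Fam4
import Pool.Agent.H517.E.Quad
import Pool.Agent.H517.E.Two

/-!
# Bloch–Kato Selmer groups over the `p`-extensions unramified outside `p`, for every prime number `p`

`p` is a prime number and `K` a number field (totally complex if `p = 2`). For a place `w` of `K`
above `p` the condition `Generates p w` on the class group and on the units outside `w` of `K` is
that the class group modulo the class of `w` has order prime to `p` and that, `(p) = w^e 𝔟` with `𝔟`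
prime to `w`, the group `(O / 𝔟³)ˣ` is generated by its `p`-th powers and by the images of the
`α ∈ O` for which `(α)` is a power of `w`. (By class field theory this says that the decomposition
group of `w` generates the Galois group of the maximal `p`-extension of `K` unramified outside `p`.)
For an imaginary quadratic field in which `p ≠ 2` is a product `w w'` and does not divide the class
number `h` this is the classical condition `α^(p-1) ≢ 1` modulo `w'²`, `(α) = w^h`, of Gold, which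
says that the `λ`-invariant of the cyclotomic `ℤ_p`-extension of `K` is one.

The condition `Independent p w` is dual to it: the completion `K_w` does not contain the `p`-th roots of
unity, and an element of `Kˣ` which is a `p`-th power in `K_w` and whose orders at all the primes not
above `p` are divisible by `p` is a `p`-th power in `K`. Let `ω(σ)` be the `p`-adic cyclotomic character
modulo `p`, `σ ζ = ζ ^ ω(σ)` for `ζ ^ p = 1`.

Let `w`, `w'` be two places with `Generates`. We consider all the fields `L` that are contained in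
a finite Galois extension `M / K` of degree a power of `p`, unramified outside `p`, and all the
continuous representations `ρ : G_L → GL_n(ℤ_p)`, `n` arbitrary, that are unramified outside `p` and
such that the characteristic polynomial of every `ρ(σ)` is `(X - 1)^k (X - ω(σ))^l` modulo `p`, i.e. all
constituents of the reduction modulo `p` are `𝔽_p` and `μ_p`; if `μ_p` occurs, we suppose
`Independent` for `w` and `w'`. If `Independent` holds for `w` and `w'`, we allow also the fields `L` which are contained in a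
finite Galois extension `M / K` of degree `2 · p^a`, unramified outside `p`, which contains the `p`-th roots of unity: then
`[K(ζ_p) : K] = 2` and the `L` are the fields in the towers of `p`-extensions over `K(ζ_p)`; for `p = 3` these are
all towers of `3`-extensions over `K(√-3)`. Let `e` be an idempotent of `V = ℚ_p^n` which commutes with `ρ`. So
`V = eV ⊕ (1 - e)V`.

Suppose that `V` is pure of weight `-1`, that the Hodge–Tate weights of `eV` at all places of `L` above
`w` are at most `0` and that those of `(1 - e)V` at all places above `w'` are at most `0`. For example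
`V` is the realization of a polarized motive over `L` with an action of an imaginary quadratic field
`F`, `F` embedded in `K`, `p` split in `F`, `eV` and `(1 - e)V ≅ (eV)^∨(1)` the two parts on which `F` acts through its two
embeddings in `ℚ_p`: then the constituent `𝔽_p` of the reduction of `eV` belongs to the constituent `μ_p` of the reduction of
`(1 - e)V`, so both types are needed for such motives. Then `H^1_f(L_u, eV) = 0` for `u ∣ w` and
`H^1_f(L_u, (1 - e)V) = 0` for `u ∣ w'`. So the Bloch–Kato classes are trivial on the inertia groups of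
the places prime to `p`, their component in `eV` is trivial at all `u ∣ w` and their component in
`(1 - e)V` is trivial at all `u ∣ w'`.

Theorem. (1) All such classes are zero. So the Bloch–Kato Selmer group of `V` over `L` is zero, and
the Abel–Jacobi map of such a motive over `L` is onto. (2) Let `K` be imaginary quadratic, `p` odd,
`(p) = w w'`, `w ≠ w'`, `p` prime to the class number, and `α ^ (p - 1) ≢ 1` modulo `w'^2` for some `α`
for which `(α)` is a power of `w`. Then `w`, `w'` satisfy both conditions. (3) For every prime number `p`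
the field `K = ℚ(√(1 - 4 p))` and the two places of `K` above `p` satisfy the conditions. (In particular
the class number of `K` is less than `p`.)

Proof of (1). A cocycle of `G_L` with values in `𝔽_p` or in `μ_p` which vanishes on the inertia
groups outside `p` and on the decomposition group of one place above `w` is zero: for `𝔽_p` this is class field
theory and the theorem of Burnside; for `μ_p` and `L = K` it is Kummer theory, and the group `Gal(M / K)` of
`p`-power order acts on the cocycles of `G_M`, so if there is a nonzero one then there is an invariant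
one, which extends to `G_K`; for the group of `K(ζ_p)`, `[K(ζ_p) : K] = 2`, and both characters this is the decomposition
in two eigenspaces. By a filtration the same is true for all lattices with residual constituents
`𝔽_p` and `μ_p`.
-/

set_option autoImplicit false
set_option linter.unusedSectionVars false

namespace Pool.Agent.Results.MP_787500_nt.EveryPrimeTowers

open NumberField IsDedekindDomain

/-! ### The Galois groups, the decomposition groups and the inertia groups -/

/-- An algebraic closure of the number field `K`. -/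
abbrev Bar (K : Type) [Field K] : Type := AlgebraicClosure K

/-- The absolute Galois group of `K`. -/
abbrev Gal (K : Type) [Field K] : Type := Bar K ≃ₐ[K] Bar K

/-- The absolute Galois group of the field `L` between `K` and its algebraic closure. -/
abbrev GalL {K : Type} [Field K] (L : IntermediateField K (Bar K)) : Type := L.fixingSubgroup

section def1

variable {K : Type} [Field K]

/-- The maximal ideal `Q` of the ring of all algebraic integers lies above the prime `v` of `K`. -/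
def Above (Q : Ideal (𝓞 (Bar K))) (v : HeightOneSpectrum (𝓞 K)) : Prop :=
  Q.IsMaximal ∧ Q.comap (algebraMap (𝓞 K) (𝓞 (Bar K))) = v.asIdeal

/-- The decomposition group of the maximal ideal `Q` of the ring of all algebraic integers: the `σ`
such that `σ Q = Q`. -/
def Dec (Q : Ideal (𝓞 (Bar K))) : Set (Gal K) := {σ | ∀ x : 𝓞 (Bar K), x ∈ Q ↔ σ • x ∈ Q}

/-- The inertia group: the `σ` such that `σ x` is congruent to `x` modulo `Q` for all `x`. -/
def Inr (Q : Ideal (𝓞 (Bar K))) : Set (Gal K) := {σ | ∀ x : 𝓞 (Bar K), σ • x - x ∈ Q}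

/-- `L` is contained in a finite Galois extension `M / K` whose degree is a power of `p` and which is
unramified outside `p`. -/
def InTower (p : ℕ) (L : IntermediateField K (Bar K)) : Prop :=
  ∃ M : IntermediateField K (Bar K), L ≤ M ∧ FiniteDimensional K M ∧ IsGalois K M ∧
    (∃ a : ℕ, Module.finrank K M = p ^ a) ∧
    ∀ Q : Ideal (𝓞 (Bar K)), Q.IsMaximal → (p : 𝓞 (Bar K)) ∉ Q → ∀ σ ∈ Inr Q, ∀ x ∈ M, σ x = x

/-- `L` is contained in a finite Galois extension `M / K` of degree `2 · p ^ a` which contains the `p`-th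
roots of unity and is unramified outside `p`. -/
def InTowerTwo (p : ℕ) (L : IntermediateField K (Bar K)) : Prop :=
  ∃ M : IntermediateField K (Bar K), L ≤ M ∧ FiniteDimensional K M ∧ IsGalois K M ∧
    (∃ a : ℕ, Module.finrank K M = 2 * p ^ a) ∧ (∀ ζ : Bar K, ζ ^ p = 1 → ζ ∈ M) ∧
    ∀ Q : Ideal (𝓞 (Bar K)), Q.IsMaximal → (p : 𝓞 (Bar K)) ∉ Q → ∀ σ ∈ Inr Q, ∀ x ∈ M, σ x = x

/-! ### The representations and their Selmer groups -/

variable {p : ℕ} [Fact p.Prime] {n : ℕ} {L : IntermediateField K (Bar K)}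

/-- `ρ` is a continuous representation of the absolute Galois group of `L` on `ℤ_p ^ n`, unramified
outside `p`, and modulo `p` the characteristic polynomial of `ρ(σ)` is `(X - 1) ^ k (X - a) ^ l`, where `σ`
maps the `p`-th roots of unity `ζ` to `ζ ^ a`. -/
structure Admissible (ρ : GalL L →* Matrix (Fin n) (Fin n) ℤ_[p]) : Prop where
  cont : Continuous ρ
  unramified : ∀ Q : Ideal (𝓞 (Bar K)), Q.IsMaximal → (p : 𝓞 (Bar K)) ∉ Q →
    ∀ σ : GalL L, (σ : Gal K) ∈ Inr Q → ρ σ = 1
  residual : ∀ (σ : GalL L) (ζ : Bar K) (a : ℕ), IsPrimitiveRoot ζ p → (σ : Gal K) ζ = ζ ^ a →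
    ∃ k l : ℕ, (ρ σ).charpoly.map (PadicInt.toZMod (p := p)) =
      (Polynomial.X - 1) ^ k * (Polynomial.X - Polynomial.C (a : ZMod p)) ^ l

/-- The characteristic polynomials are `(X - 1) ^ n` modulo `p`. -/
def Unipotent (ρ : GalL L →* Matrix (Fin n) (Fin n) ℤ_[p]) : Prop :=
  ∀ σ, (ρ σ).charpoly.map (PadicInt.toZMod (p := p)) = (Polynomial.X - 1) ^ n

/-- The action on `V = ℚ_p ^ n`. -/
noncomputable def act (ρ : GalL L →* Matrix (Fin n) (Fin n) ℤ_[p]) (σ : GalL L)
    (x : Fin n → ℚ_[p]) : Fin n → ℚ_[p] :=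
  ((ρ σ).map (algebraMap ℤ_[p] ℚ_[p])).mulVec x

/-- `e` is an idempotent endomorphism of the representation `V`. -/
structure IsProjector (ρ : GalL L →* Matrix (Fin n) (Fin n) ℤ_[p])
    (e : Matrix (Fin n) (Fin n) ℚ_[p]) : Prop where
  idem : e * e = e
  comm : ∀ σ y, e.mulVec (act ρ σ y) = act ρ σ (e.mulVec y)

/-- The continuous cocycles of the absolute Galois group of `L` with values in `V`. -/
structure IsCocycle (ρ : GalL L →* Matrix (Fin n) (Fin n) ℤ_[p]) (c : GalL L → Fin n → ℚ_[p]) :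
    Prop where
  cont : Continuous c
  mul : ∀ σ τ, c (σ * τ) = c σ + act ρ σ (c τ)

/-- The cocycle is equal to a coboundary on the elements of the Galois group of `L` which are in `D`. -/
def TrivialOn (ρ : GalL L →* Matrix (Fin n) (Fin n) ℤ_[p]) (D : Set (Gal K))
    (c : GalL L → Fin n → ℚ_[p]) : Prop :=
  ∃ y : Fin n → ℚ_[p], ∀ σ : GalL L, (σ : Gal K) ∈ D → c σ = act ρ σ y - y

/-- The Bloch–Kato conditions, for a representation `V` which is pure of weight `-1`, if the
Hodge–Tate weights of `e V` at the places above `w` and those of `(1 - e) V` at the places above `w'`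
are at most `0`. -/
structure IsSelmer (w w' : HeightOneSpectrum (𝓞 K)) (ρ : GalL L →* Matrix (Fin n) (Fin n) ℤ_[p])
    (e : Matrix (Fin n) (Fin n) ℚ_[p]) (c : GalL L → Fin n → ℚ_[p]) : Prop where
  away : ∀ Q : Ideal (𝓞 (Bar K)), Q.IsMaximal → (p : 𝓞 (Bar K)) ∉ Q → TrivialOn ρ (Inr Q) c
  first : ∀ Q : Ideal (𝓞 (Bar K)), Above Q w → TrivialOn ρ (Dec Q) fun σ => e.mulVec (c σ)
  second : ∀ Q : Ideal (𝓞 (Bar K)), Above Q w' →
    TrivialOn ρ (Dec Q) fun σ => (1 - e).mulVec (c σ)

end def1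

/-! ### The condition on a place above `p` -/

section def2

variable {K : Type} [Field K] [NumberField K]

/-- The class of a prime. -/
noncomputable def cl (w : HeightOneSpectrum (𝓞 K)) : ClassGroup (𝓞 K) :=
  ClassGroup.mk0 ⟨w.asIdeal, mem_nonZeroDivisors_iff_ne_zero.2 w.ne_bot⟩

/-- The class group modulo the class of `w` has order prime to `p` and, `(p) = w ^ e 𝔟` with `𝔟` prime
to `w`, the group `(O / 𝔟 ^ 3)ˣ` is generated by the `p`-th powers and the images of the elements
`α` of `O` for which `(α)` is a power of `w`. -/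
structure Generates (p : ℕ) (w : HeightOneSpectrum (𝓞 K)) : Prop where
  above : (p : 𝓞 K) ∈ w.asIdeal
  classes : ∀ C : ClassGroup (𝓞 K), ∃ m k : ℕ, ¬ p ∣ m ∧ C ^ m = cl w ^ k
  units : ∃ (e : ℕ) (𝔟 : Ideal (𝓞 K)), w.asIdeal ^ e * 𝔟 = Ideal.span {(p : 𝓞 K)} ∧
    IsCoprime w.asIdeal 𝔟 ∧ ∀ x : 𝓞 K, IsCoprime (Ideal.span {x}) 𝔟 →
      ∃ (α y : 𝓞 K) (k : ℕ), Ideal.span {α} = w.asIdeal ^ k ∧ x * α - y ^ p ∈ 𝔟 ^ 3

/-- The element `x` of `K` has a `p`-th root which is fixed by the decomposition group of a place above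
`w`, that is, it is a `p`-th power in the completion of `K` at `w`. -/
def PowerAt (p : ℕ) (w : HeightOneSpectrum (𝓞 K)) (x : K) : Prop :=
  ∃ (Q : Ideal (𝓞 (Bar K))) (y : Bar K), Above Q w ∧ y ^ p = algebraMap K (Bar K) x ∧
    ∀ σ ∈ Dec Q, σ y = y

/-- The completion at `w` contains no primitive `p`-th root of unity, and the elements of `Kˣ` which
are `p`-th powers there and whose orders at the primes not above `p` are divisible by `p` are
`p`-th powers in `K`. -/
structure Independent (p : ℕ) (w : HeightOneSpectrum (𝓞 K)) : Prop where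
  roots : ∀ Q : Ideal (𝓞 (Bar K)), Above Q w → ∀ ζ : Bar K, IsPrimitiveRoot ζ p →
    ∃ σ ∈ Dec Q, σ ζ ≠ ζ
  powers : ∀ x : K, x ≠ 0 → (∀ v : HeightOneSpectrum (𝓞 K), (p : 𝓞 K) ∉ v.asIdeal →
    ∃ t : WithZero (Multiplicative ℤ), v.valuation K x = t ^ p) → PowerAt p w x → ∃ b : K, x = b ^ p

/-- The fields `L` and representations `ρ` to which the theorem applies: `L` is in the towers of `p`-extensions over
`K` and `ρ` is residually unipotent, or `Independent` holds for `w` and `w'` and `L` is in the towers of `p`-extensions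
over `K` or over `K(ζ_p)`, `[K(ζ_p) : K] = 2`. -/
def Controlled {p : ℕ} [Fact p.Prime] (w w' : HeightOneSpectrum (𝓞 K)) {n : ℕ}
    {L : IntermediateField K (Bar K)} (ρ : GalL L →* Matrix (Fin n) (Fin n) ℤ_[p]) : Prop :=
  (InTower p L ∧ Unipotent ρ) ∨
    (Independent p w ∧ Independent p w' ∧ (InTower p L ∨ InTowerTwo p L))

end def2

/-! ### The theorem -/

section proof

open Pool.Agent.NH7.Sch (OO)
open Pool.Agent.H517

variable {K : Type} [Field K] [NumberField K] {p : ℕ} [hp : Fact p.Prime]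

theorem rc (h2 : p = 2 → IsEmpty (K →+* ℝ)) {w : HeightOneSpectrum (𝓞 K)} (h : Generates p w) :
    B.RC p w := by
  obtain ⟨e, 𝔟, hab, hcop, hun⟩ := h.units
  exact B.rc_of h2 hab hcop (B.cls_divisor h.classes) hun

theorem rc' (h2 : p = 2 → IsEmpty (K →+* ℝ)) {w : HeightOneSpectrum (𝓞 K)} (h : Generates p w) :
    S.RC p {v | (p : 𝓞 K) ∈ v.asIdeal} w := by
  obtain ⟨e, 𝔟, hab, hcop, hun⟩ := h.units
  have h1 := S.rc_all h2 hab hcop (𝔫 := 1) (by rw [Ideal.one_eq_top]; exact top_ne_bot)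
    isCoprime_one_right h.above (B.cls_divisor h.classes)
    (by simpa only [mul_one] using hun)
  have h3 : ∀ v : HeightOneSpectrum (𝓞 K), ¬ (1 : Ideal (𝓞 K)) ≤ v.asIdeal := by
    intro v h4
    rw [Ideal.one_eq_top, top_le_iff] at h4
    exact v.isPrime.ne_top h4
  simpa only [h3, or_false] using h1

omit hp in
theorem ind_iff {w : HeightOneSpectrum (𝓞 K)} (hw : (p : 𝓞 K) ∈ w.asIdeal) :
    Independent p w ↔ E.Ind p {v | (p : 𝓞 K) ∈ v.asIdeal} w := by
  constructor
  · intro h
    refine ⟨fun Q hQ hQw ζ hζ => h.roots Q ⟨hQ, hQw⟩ ζ hζ, fun x hx hv ⟨Q, y, hQ, hQw, hy⟩ =>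
      h.powers x hx (fun v hpv => hv v hpv fun hvw => hpv (hvw ▸ hw)) ⟨Q, y, ⟨hQ, hQw⟩, hy⟩⟩
  · intro h
    refine ⟨fun Q hQ ζ hζ => h.roots Q hQ.1 hQ.2 ζ hζ, fun x hx hv ⟨Q, y, hQ, hy⟩ =>
      h.powers x hx (fun v hpv _ => hv v hpv) ⟨Q, y, hQ.1, hQ.2, hy⟩⟩

theorem exists_eps : ∃ (ζ : Bar K) (ε : Gal K →* (ZMod p)ˣ), IsPrimitiveRoot ζ p ∧
    ∀ σ : Gal K, σ ζ = ζ ^ (ε σ : ZMod p).val := by
  obtain ⟨ζ, hζ⟩ : ∃ ζ : Bar K, IsPrimitiveRoot ζ p :=
    HasEnoughRootsOfUnity.exists_primitiveRoot (AlgebraicClosure K) p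
  exact ⟨ζ, hζ.autToPow K, hζ, fun σ => (hζ.autToPow_spec K σ).symm⟩

omit hp in
theorem out_IS {w : HeightOneSpectrum (𝓞 K)} (σ : Gal K)
    (h : σ ∈ S.IS (K := K) {v | (p : 𝓞 K) ∈ v.asIdeal} w) :
    ∃ Q : Ideal (𝓞 (Bar K)), Q.IsMaximal ∧ (p : 𝓞 (Bar K)) ∉ Q ∧ σ ∈ Inr Q := by
  obtain ⟨Q, v, hQm, hQv, hvS, hvw, hσ⟩ := h
  refine ⟨Q, hQm, fun hpQ => hvS ?_, hσ⟩
  show (p : 𝓞 K) ∈ v.asIdeal
  rw [← hQv, Ideal.mem_comap, map_natCast]
  exact hpQ

/-- control of both characters over the fields in the towers -/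
theorem control {w : HeightOneSpectrum (𝓞 K)} (hrc : S.RC p {v | (p : 𝓞 K) ∈ v.asIdeal} w)
    (hi : E.Ind p {v | (p : 𝓞 K) ∈ v.asIdeal} w) {L : IntermediateField K (Bar K)}
    (hL : InTower p L ∨ InTowerTwo p L) {ζ : Bar K} {ε : Gal K →* (ZMod p)ˣ}
    (hζ : IsPrimitiveRoot ζ p) (hε : ∀ σ : Gal K, σ ζ = ζ ^ (ε σ : ZMod p).val)
    {Q : Ideal (OO K)} (hQ : Q.IsMaximal)
    (hQw : Q.comap (algebraMap (𝓞 K) (OO K)) = w.asIdeal) :
    IsOpen (L.fixingSubgroup : Set (Gal K)) ∧
    E.Ctl (1 : L.fixingSubgroup →* (ZMod p)ˣ)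
      {σ : L.fixingSubgroup | (σ : Gal K) ∈ S.IS (K := K) {v | (p : 𝓞 K) ∈ v.asIdeal} w}
      {σ : L.fixingSubgroup | (σ : Gal K) ∈ Pool.Agent.NH7.Sch.Dec Q} ∧
    E.Ctl (ε.comp L.fixingSubgroup.subtype)
      {σ : L.fixingSubgroup | (σ : Gal K) ∈ S.IS (K := K) {v | (p : 𝓞 K) ∈ v.asIdeal} w}
      {σ : L.fixingSubgroup | (σ : Gal K) ∈ Pool.Agent.NH7.Sch.Dec Q} := by
  rcases hL with ⟨M, hLM, hfd, hgal, ⟨a, ha⟩, hur⟩ | ⟨M, hLM, hfd, hgal, ⟨a, ha⟩, hζM, hur⟩
  · refine ⟨Subgroup.isOpen_mono (IntermediateField.fixingSubgroup_le hLM)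
      (IntermediateField.fixingSubgroup_isOpen M), ?_⟩
    exact E.ctl_field hrc hi hζ hε (IntermediateField.fixingSubgroup_le hLM)
      (M := M.fixingSubgroup) inferInstance
      ⟨a, by rw [← IntermediateField.finrank_eq_fixingSubgroup_index, ha]⟩
      (IntermediateField.fixingSubgroup_isOpen M)
      (by
        intro σ hσ
        obtain ⟨Q', hQ', hpQ', hσ'⟩ := out_IS σ hσ
        rw [IntermediateField.mem_fixingSubgroup_iff]
        exact hur Q' hQ' hpQ' σ hσ') hQ hQw
  · refine ⟨Subgroup.isOpen_mono (IntermediateField.fixingSubgroup_le hLM)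
      (IntermediateField.fixingSubgroup_isOpen M), ?_⟩
    exact (E.ctl_quad hrc hi hζ hε (IntermediateField.fixingSubgroup_le hLM)
      (M := M.fixingSubgroup) inferInstance
      (fun σ hσ => (IntermediateField.mem_fixingSubgroup_iff M _).1 hσ ζ (hζM ζ hζ.pow_eq_one))
      ⟨a, by rw [← IntermediateField.finrank_eq_fixingSubgroup_index, ha]⟩
      (IntermediateField.fixingSubgroup_isOpen M)
      (by
        intro σ hσ
        obtain ⟨Q', hQ', hpQ', hσ'⟩ := out_IS σ hσ
        rw [IntermediateField.mem_fixingSubgroup_iff]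
        exact hur Q' hQ' hpQ' σ hσ') hQ hQw).2.2

theorem one_part {w : HeightOneSpectrum (𝓞 K)} (hrc : B.RC p w) {n : ℕ}
    {L : IntermediateField K (Bar K)}
    {ρ : GalL L →* Matrix (Fin n) (Fin n) ℤ_[p]} (hρ : Admissible ρ)
    (hT : (InTower p L ∧ Unipotent ρ) ∨ (E.Ind p {v | (p : 𝓞 K) ∈ v.asIdeal} w ∧
      (InTower p L ∨ InTowerTwo p L)))
    (hrc' : S.RC p {v | (p : 𝓞 K) ∈ v.asIdeal} w)
    {c : GalL L → Fin n → ℚ_[p]} (hc : IsCocycle ρ c)
    (ha : ∀ Q : Ideal (𝓞 (Bar K)), Q.IsMaximal → (p : 𝓞 (Bar K)) ∉ Q → TrivialOn ρ (Inr Q) c)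
    (hw : ∀ Q : Ideal (𝓞 (Bar K)), Above Q w → TrivialOn ρ (Dec Q) c) :
    TrivialOn ρ Set.univ c := by
  have hz : ∀ σ : GalL L, (∃ Q : Ideal (𝓞 (Bar K)), Q.IsMaximal ∧ (p : 𝓞 (Bar K)) ∉ Q ∧
      (σ : Gal K) ∈ Inr Q) → c σ = 0 := by
    rintro σ ⟨Q, hQ, hpQ, hσ⟩
    obtain ⟨y, hy⟩ := ha Q hQ hpQ
    rw [hy σ hσ, act, hρ.unramified Q hQ hpQ σ hσ, Matrix.map_one _ (map_zero _) (map_one _),
      Matrix.one_mulVec, sub_self]
  rcases hT with ⟨hL, hun⟩ | ⟨hind, hL⟩
  swap
  · obtain ⟨Q, hQ, hQw⟩ := Pool.Agent.NH7.Sch.exists_Q (K := K) w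
    obtain ⟨y, hy⟩ := hw Q ⟨hQ, hQw⟩
    obtain ⟨ζ, ε, hζ, hε⟩ := exists_eps (K := K) (p := p)
    obtain ⟨hop, h1, h2⟩ := control hrc' hind hL hζ hε hQ hQw
    have hcl : IsClosed (L.fixingSubgroup : Set (Gal K)) := Subgroup.isClosed_of_isOpen _ hop
    have : CompactSpace L.fixingSubgroup := isCompact_iff_compactSpace.1 hcl.isCompact
    obtain ⟨y, hy⟩ := E.van E.t_fil
      (I := {σ : L.fixingSubgroup | (σ : Gal K) ∈ S.IS (K := K) {v | (p : 𝓞 K) ∈ v.asIdeal} w})
      (D := {σ : L.fixingSubgroup | (σ : Gal K) ∈ Pool.Agent.NH7.Sch.Dec Q})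
      (ε := ε.comp L.fixingSubgroup.subtype) h1 h2 (ρ := ρ) hρ.cont
      (by
        intro σ
        obtain ⟨k, l, h3⟩ := hρ.residual σ ζ (ε (σ : Gal K) : ZMod p).val hζ (hε σ)
        refine ⟨k, l, ?_⟩
        rw [h3, ZMod.natCast_zmod_val]
        rfl)
      (by
        intro σ hσ
        obtain ⟨Q', hQ', hpQ', hσ'⟩ := out_IS _ hσ
        exact hρ.unramified Q' hQ' hpQ' σ hσ') hc.cont hc.mul
      (fun σ hσ => hz σ (out_IS _ hσ)) ⟨y, fun σ hσ => hy σ hσ⟩
    exact ⟨y, fun σ _ => hy σ⟩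
  obtain ⟨M, hLM, hfd, hgal, ⟨a, ha'⟩, hur⟩ := hL
  obtain ⟨y, hy⟩ := B.vanish hrc (H := L.fixingSubgroup) (N := M.fixingSubgroup)
    (IntermediateField.fixingSubgroup_le hLM) inferInstance
    ⟨a, by rw [← IntermediateField.finrank_eq_fixingSubgroup_index, ha']⟩
    (IntermediateField.fixingSubgroup_isOpen M)
    (by
      rintro σ ⟨Q, hQ, hpQ, hσ⟩
      rw [IntermediateField.mem_fixingSubgroup_iff]
      exact hur Q hQ hpQ σ hσ)
    (ρ := ρ) (fun i j => (continuous_apply j).comp ((continuous_apply i).comp hρ.cont))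
    (by
      rintro σ ⟨Q, hQ, hpQ, hσ⟩
      exact hρ.unramified Q hQ hpQ σ hσ)
    (fun σ => ⟨_, Pool.Agent.H517.M.m2_of_charpoly (by simpa using hun σ)⟩)
    hc.cont hc.mul
    (by
      rintro σ ⟨Q, hQ, hpQ, hσ⟩
      obtain ⟨y, hy⟩ := ha Q hQ hpQ
      rw [hy σ hσ, act, hρ.unramified Q hQ hpQ σ hσ, Matrix.map_one _ (map_zero _) (map_one _),
        Matrix.one_mulVec, sub_self])
    (fun Q hQ hQw => by
      obtain ⟨y, hy⟩ := hw Q ⟨hQ, hQw⟩
      exact ⟨y, fun σ hσ => hy σ hσ⟩)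
  exact ⟨y, fun σ _ => hy σ⟩

theorem two_parts {w w' : HeightOneSpectrum (𝓞 K)} (hw : B.RC p w) (hw' : B.RC p w')
    (hrc : S.RC p {v | (p : 𝓞 K) ∈ v.asIdeal} w) (hrc' : S.RC p {v | (p : 𝓞 K) ∈ v.asIdeal} w') {n : ℕ}
    {L : IntermediateField K (Bar K)}
    {ρ : GalL L →* Matrix (Fin n) (Fin n) ℤ_[p]} (hρ : Admissible ρ)
    (hT : (InTower p L ∧ Unipotent ρ) ∨ (E.Ind p {v | (p : 𝓞 K) ∈ v.asIdeal} w ∧
      (InTower p L ∨ InTowerTwo p L)))
    (hT' : (InTower p L ∧ Unipotent ρ) ∨ (E.Ind p {v | (p : 𝓞 K) ∈ v.asIdeal} w' ∧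
      (InTower p L ∨ InTowerTwo p L)))
    {e : Matrix (Fin n) (Fin n) ℚ_[p]} (he : IsProjector ρ e)
    {c : GalL L → Fin n → ℚ_[p]} (hc : IsCocycle ρ c) (hs : IsSelmer w w' ρ e c) :
    TrivialOn ρ Set.univ c := by
  have hsub : ∀ (σ : GalL L) (x y : Fin n → ℚ_[p]), act ρ σ (x - y) = act ρ σ x - act ρ σ y :=
    fun σ x y => by rw [act, act, act, Matrix.mulVec_sub]
  have hadd : ∀ (σ : GalL L) (x y : Fin n → ℚ_[p]), act ρ σ (x + y) = act ρ σ x + act ρ σ y :=
    fun σ x y => by rw [act, act, act, Matrix.mulVec_add]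
  have hcomm : ∀ (f : Matrix (Fin n) (Fin n) ℚ_[p]), (∀ σ y, f.mulVec (act ρ σ y) =
      act ρ σ (f.mulVec y)) → IsCocycle ρ (fun σ => f.mulVec (c σ)) ∧
      ∀ Q : Ideal (𝓞 (Bar K)), Q.IsMaximal → (p : 𝓞 (Bar K)) ∉ Q →
        TrivialOn ρ (Inr Q) (fun σ => f.mulVec (c σ)) := by
    intro f hf
    refine ⟨⟨?_, fun σ τ => ?_⟩, fun Q hQ hpQ => ?_⟩
    · exact (Continuous.matrix_mulVec continuous_const hc.cont)
    · show f.mulVec (c (σ * τ)) = f.mulVec (c σ) + act ρ σ (f.mulVec (c τ))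
      rw [hc.mul, Matrix.mulVec_add, hf]
    · obtain ⟨y, hy⟩ := hs.away Q hQ hpQ
      refine ⟨f.mulVec y, fun σ hσ => ?_⟩
      show f.mulVec (c σ) = _
      rw [hy σ hσ, Matrix.mulVec_sub, hf]
  have he' : ∀ σ y, (1 - e).mulVec (act ρ σ y) = act ρ σ ((1 - e).mulVec y) := by
    intro σ y
    rw [Matrix.sub_mulVec, Matrix.sub_mulVec, Matrix.one_mulVec, Matrix.one_mulVec, he.comm, hsub]
  obtain ⟨h1, h2⟩ := hcomm e he.comm
  obtain ⟨h3, h4⟩ := hcomm (1 - e) he'
  obtain ⟨y, hy⟩ := one_part hw hρ hT hrc h1 h2 hs.first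
  obtain ⟨z, hz⟩ := one_part hw' hρ hT' hrc' h3 h4 hs.second
  refine ⟨y + z, fun σ hσ => ?_⟩
  have h5 : e.mulVec (c σ) = _ := hy σ hσ
  have h6 : (1 - e).mulVec (c σ) = _ := hz σ hσ
  rw [Matrix.sub_mulVec, Matrix.one_mulVec] at h6
  rw [hadd, ← sub_add_cancel (c σ) (e.mulVec (c σ)), h6, h5]
  abel

end proof

/-- **The Bloch–Kato Selmer groups vanish.** (1) For every prime number `p`, every number field `K`
(totally complex if `p = 2`) and places `w`, `w'` of `K` with the condition `Generates`, for all the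
fields `L` which are contained in a Galois extension of `K` of `p`-power degree unramified outside
`p`, all `n`, all admissible `ρ` which are residually unipotent, or all admissible `ρ` if `w`, `w'` satisfy also
the condition `Independent`, and all idempotents `e`; in the last case also for all `L` contained in a Galois extension of
`K` of degree `2 · p ^ a` unramified outside `p` which contains the `p`-th roots of unity. (2) For odd `p`, imaginary quadratic `K`, `(p) = w w'`,
`w ≠ w'`, `p` prime to the class number, both conditions hold at both places if `α ^ (p - 1)` is not `1` modulo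
`w' ^ 2` for an `α` for which `(α)` is a power of `w`. (3) For all prime numbers `p` the field
`K = ℚ(√(1 - 4 p))`, generated by a root of `X ^ 2 - X + p`, and its places above `p` satisfy
`Generates`, and `Independent` for odd `p`. -/
theorem result :
    (∀ (p : ℕ) [Fact p.Prime] (K : Type) [Field K] [NumberField K], (p = 2 → IsEmpty (K →+* ℝ)) →
      ∀ w w' : HeightOneSpectrum (𝓞 K), Generates p w → Generates p w' →
      ∀ L : IntermediateField K (Bar K), ∀ (n : ℕ) (ρ : GalL L →* Matrix (Fin n) (Fin n) ℤ_[p]),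
      Admissible ρ → Controlled w w' ρ →
      ∀ e : Matrix (Fin n) (Fin n) ℚ_[p], IsProjector ρ e →
      ∀ c : GalL L → Fin n → ℚ_[p], IsCocycle ρ c → IsSelmer w w' ρ e c →
        TrivialOn ρ Set.univ c) ∧
    (∀ (p : ℕ) [Fact p.Prime] (K : Type) [Field K] [NumberField K], p ≠ 2 →
      Module.finrank ℚ K = 2 → IsEmpty (K →+* ℝ) → ¬ p ∣ classNumber K →
      ∀ w w' : HeightOneSpectrum (𝓞 K), w ≠ w' → w.asIdeal * w'.asIdeal = Ideal.span {(p : 𝓞 K)} →
      ∀ (α : 𝓞 K) (k : ℕ), Ideal.span {α} = w.asIdeal ^ k → α ^ (p - 1) - 1 ∉ w'.asIdeal ^ 2 →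
        Generates p w ∧ Generates p w' ∧ Independent p w ∧ Independent p w') ∧
    ∀ (p : ℕ) [Fact p.Prime] (K : Type) [Field K] [NumberField K], Module.finrank ℚ K = 2 →
      (∃ α : K, α ^ 2 - α + p = 0) → IsEmpty (K →+* ℝ) ∧
        ∃ w w' : HeightOneSpectrum (𝓞 K), w ≠ w' ∧
          w.asIdeal * w'.asIdeal = Ideal.span {(p : 𝓞 K)} ∧ Generates p w ∧ Generates p w' ∧
          (p ≠ 2 → Independent p w ∧ Independent p w') := by
  have hquad : ∀ (p : ℕ) [Fact p.Prime] (K : Type) [Field K] [NumberField K], p ≠ 2 →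
      Module.finrank ℚ K = 2 → IsEmpty (K →+* ℝ) → ¬ p ∣ classNumber K →
      ∀ w w' : HeightOneSpectrum (𝓞 K), w ≠ w' → w.asIdeal * w'.asIdeal = Ideal.span {(p : 𝓞 K)} →
      ∀ (α : 𝓞 K) (k : ℕ), Ideal.span {α} = w.asIdeal ^ k → α ^ (p - 1) - 1 ∉ w'.asIdeal ^ 2 →
        Generates p w ∧ Generates p w' ∧ Independent p w ∧ Independent p w' := by
    intro p _ K _ _ hp2 h2 hre hcl w w' hne hab α k hα hα2
    have hpw : (p : 𝓞 K) ∈ w.asIdeal := by
      have h3 : Ideal.span {(p : 𝓞 K)} ≤ w.asIdeal := by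
        rw [← hab]
        exact Ideal.mul_le_left
      rwa [Ideal.span_singleton_le_iff_mem] at h3
    have hpw' : (p : 𝓞 K) ∈ w'.asIdeal := by
      have h3 : Ideal.span {(p : 𝓞 K)} ≤ w'.asIdeal := by
        rw [← hab]
        exact Ideal.mul_le_right
      rwa [Ideal.span_singleton_le_iff_mem] at h3
    obtain ⟨h3, h4, β, hβ, hβ2⟩ := Pool.Agent.H517.E.both_quad hp2 h2 hre hcl hne hab
      (T := {v | (p : 𝓞 K) ∈ v.asIdeal}) (fun v hv => hv) hα hα2
    refine ⟨⟨hpw, Pool.Agent.H517.E.class_pow hcl w (cl w), Pool.Agent.H517.E.units_quad hp2 h2 hne hab hα hα2⟩,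
      ⟨hpw', Pool.Agent.H517.E.class_pow hcl w (cl w'), Pool.Agent.H517.E.units_quad hp2 h2 hne.symm (by rw [mul_comm]; exact hab) hβ hβ2⟩,
      (ind_iff hpw).2 h3, (ind_iff hpw').2 h4⟩
  refine ⟨?_, hquad, ?_⟩
  · intro p _ K _ _ h2 w w' hw hw' L n ρ hρ hT e he c hc hs
    exact two_parts (rc h2 hw) (rc h2 hw') (rc' h2 hw) (rc' h2 hw') hρ
      (hT.imp id fun h => ⟨(ind_iff hw.above).1 h.1, h.2.2⟩)
      (hT.imp id fun h => ⟨(ind_iff hw'.above).1 h.2.1, h.2.2⟩) he hc hs
  intro p hp K _ _ h2 ⟨a, ha⟩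
  have hint : IsIntegral ℤ a := by
    refine ⟨Polynomial.X ^ 2 - Polynomial.X + Polynomial.C (p : ℤ), by monicity!, ?_⟩
    simpa using ha
  obtain ⟨α, hα0⟩ : ∃ α : 𝓞 K, α = ⟨a, hint⟩ := ⟨_, rfl⟩
  have hα1 : algebraMap (𝓞 K) K α = a := by rw [hα0]; rfl
  have hα : α ^ 2 - α + p = 0 := by
    apply FaithfulSMul.algebraMap_injective (𝓞 K) K
    rw [map_add, map_sub, map_pow, map_natCast, map_zero, hα1, ha]
  obtain ⟨β, hβ'⟩ : ∃ β : 𝓞 K, β = 1 - α := ⟨_, rfl⟩
  have hβ : β ^ 2 - β + p = 0 := by rw [hβ']; linear_combination hα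
  obtain ⟨w, hw⟩ := Pool.Agent.H517.B.exists_pl (p := p) h2 hα
  obtain ⟨w', hw'⟩ := Pool.Agent.H517.B.exists_pl (p := p) h2 hβ
  have hsum : α + β = 1 := by rw [hβ']; ring
  have hmul : α * β = p := by rw [hβ']; linear_combination -hα
  have hcop : IsCoprime w.asIdeal w'.asIdeal := by
    rw [hw, hw', Ideal.isCoprime_span_singleton_iff]
    exact ⟨1, 1, by rw [one_mul, one_mul, hsum]⟩
  have hab : w.asIdeal * w'.asIdeal = Ideal.span {(p : 𝓞 K)} := by
    rw [hw, hw', Ideal.span_singleton_mul_span_singleton, hmul]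
  have hne : w ≠ w' := by
    rintro rfl
    rw [Ideal.isCoprime_iff_sup_eq, sup_idem] at hcop
    exact w.isPrime.ne_top hcop
  have hcl := Pool.Agent.H517.B.class_lt h2 hp.out hα
  have hre := Pool.Agent.H517.B.no_real hp.out.one_le hα
  refine ⟨hre, w, w', hne, hab, ⟨?_, ?_, 1, w'.asIdeal, ?_,
    hcop, ?_⟩, ⟨?_, ?_, 1, w.asIdeal, ?_, hcop.symm, ?_⟩, ?_⟩
  · rw [hw, Ideal.mem_span_singleton]
    exact ⟨β, hmul.symm⟩
  · exact Pool.Agent.H517.B.class_cond hcl w
  · rw [pow_one, hab]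
  · exact Pool.Agent.H517.B.unit_cond h2 hα hsum hw hw'
  · rw [hw', Ideal.mem_span_singleton]
    exact ⟨α, by rw [mul_comm, hmul]⟩
  · exact Pool.Agent.H517.B.class_cond hcl w'
  · rw [pow_one, mul_comm, hab]
  · exact Pool.Agent.H517.B.unit_cond h2 hβ (by rw [add_comm, hsum]) hw' hw
  · intro hp2
    have hcl' : ¬ p ∣ classNumber K := by
      intro h
      have h3 : classNumber K < p := by
        unfold classNumber
        exact hcl
      exact absurd (Nat.le_of_dvd Fintype.card_pos h) (not_le.2 h3)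
    obtain ⟨-, -, h5, h6⟩ := hquad p K hp2 h2 hre hcl' w w' hne hab α 1 (by rw [pow_one, hw])
      (Pool.Agent.H517.E.pow_special h2 hα hsum hw')
    exact ⟨h5, h6⟩

end Pool.Agent.Results.MP_787500_nt.EveryPrimeTowers
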